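import Mathlib
import Pool.Agent.Q164.Flower4

/-!
# Maximizing measures of odd trigonometric polynomials need not lie in flowers with `≤ n` petals

Problem MP_38b438, Q1 (negative answer).  For the doubling map on `ℝ/ℤ` and
`f(x) = -(8 cos 2πx + 10 cos 6πx + 7 cos 10πx) ∈ V₅` the equidistributed measure on the periodic
orbit of `3/43` (period 14) is maximizing, and every flower containing this orbit has at least
`7` petals.

The proof: an explicit piecewise linear/quadratic sub-action `φ` on the grid of mesh `1/688` with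
`f + φ - φ ∘ E₂ ≤ ∫ f dμ` everywhere (equality on the orbit, where value and slope of `φ` are the
exact solutions of the cohomological equation along the orbit); all other inequalities are
integer inequalities checked by the kernel.
-/

open MeasureTheory Set

namespace Pool.Agent.Results.MP_38b438_an.FlowerFalse

noncomputable section

/-- The circle `ℝ/ℤ`. -/
abbrev T : Type := AddCircle (1 : ℝ)

/-- The doubling map `E₂ x = 2x mod 1`. -/
def E₂ (x : T) : T := x + x

/-- `μ` is an `E₂`-invariant Borel probability measure. -/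
def IsInvariantProb (μ : Measure T) : Prop := IsProbabilityMeasure μ ∧ μ.map E₂ = μ

/-- `μ` is maximizing for `f`. -/
def IsMaximizing (f : T → ℝ) (μ : Measure T) : Prop :=
  IsInvariantProb μ ∧ ∀ ν : Measure T, IsInvariantProb ν → ∫ t, f t ∂ν ≤ ∫ t, f t ∂μ

/-- `f ∈ V_n`: `f(x) = ∑_{k odd, k ≤ n} (a_k cos 2πkx + b_k sin 2πkx)`, not all coefficients
zero. -/
def V (n : ℕ) (f : T → ℝ) : Prop :=
  ∃ a b : ℕ → ℝ, (∃ k, Odd k ∧ k ≤ n ∧ (a k ≠ 0 ∨ b k ≠ 0)) ∧
    ∀ x : ℝ, f (x : T) = ∑ k ∈ (Finset.range (n + 1)).filter Odd,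
      (a k * Real.cos (2 * Real.pi * k * x) + b k * Real.sin (2 * Real.pi * k * x))

/-- A closed non-degenerate arc of the circle. -/
def IsArc (A : Set T) : Prop :=
  ∃ a b : ℝ, a < b ∧ A = (fun t : ℝ => (t : T)) '' Icc a b

/-- The translate `X + 1/2`. -/
def half (X : Set T) : Set T := (fun x : T => x + ((1 / 2 : ℝ) : T)) '' X

/-- A flower: a finite union `X` of closed non-degenerate arcs with `X ∪ (X + 1/2) = T` and
`X ∩ (X + 1/2) = ∂X`. -/
def IsFlower (X : Set T) : Prop :=
  (∃ S : Set (Set T), S.Finite ∧ (∀ A ∈ S, IsArc A) ∧ X = ⋃₀ S) ∧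
    X ∪ half X = univ ∧ X ∩ half X = frontier X

/-- The petals (connected components) of `X`. -/
def petals (X : Set T) : Set (Set T) := {C | ∃ x ∈ X, C = connectedComponentIn X x}

/-- The statement of Q1: for every odd `n` and every `f ∈ V_n`, every maximizing measure of `f`
has support contained in a flower with at most `n` petals. -/
def FlowerConjecture : Prop :=
  ∀ n : ℕ, Odd n → ∀ f : T → ℝ, V n f → ∀ μ : Measure T, IsMaximizing f μ →
    ∃ X : Set T, IsFlower X ∧ (petals X).encard ≤ n ∧ μ.support ⊆ X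

/-- **Negative answer to Q1**, already for `n = 5`. -/
theorem result :
    (∃ f : T → ℝ, V 5 f ∧
      (∀ x : ℝ, f (x : T) = -(8 * Real.cos (2 * Real.pi * x) + 10 * Real.cos (2 * Real.pi * (3 * x))
        + 7 * Real.cos (2 * Real.pi * (5 * x)))) ∧
      ∃ μ : Measure T, IsMaximizing f μ ∧
        ∀ X : Set T, IsFlower X → μ.support ⊆ X → 7 ≤ (petals X).encard) ∧
    ¬ FlowerConjecture := by
  have key : ∃ f : T → ℝ, V 5 f ∧
      (∀ x : ℝ, f (x : T) = -(8 * Real.cos (2 * Real.pi * x) + 10 * Real.cos (2 * Real.pi * (3 * x))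
        + 7 * Real.cos (2 * Real.pi * (5 * x)))) ∧
      ∃ μ : Measure T, IsMaximizing f μ ∧
        ∀ X : Set T, IsFlower X → μ.support ⊆ X → 7 ≤ (petals X).encard := by
    have hf : ∀ x : ℝ, Q164.Flower.lf Q164.Flower.F (x : T) =
        -(8 * Real.cos (2 * Real.pi * x) + 10 * Real.cos (2 * Real.pi * (3 * x))
        + 7 * Real.cos (2 * Real.pi * (5 * x))) := fun x =>
      Q164.Flower.lf_coe Q164.Flower.F_periodic x
    refine ⟨Q164.Flower.lf Q164.Flower.F, ?_, hf, Q164.Flower.mu, ?_, ?_⟩
    · refine ⟨fun k => if k = 1 then -8 else if k = 3 then -10 else -7, fun _ => 0,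
        ⟨1, by decide, by norm_num, Or.inl (by norm_num)⟩, fun x => ?_⟩
      rw [hf x]
      have hfilter : (Finset.range (5 + 1)).filter Odd = {1, 3, 5} := by decide
      rw [hfilter, Finset.sum_insert (by decide), Finset.sum_insert (by decide),
        Finset.sum_singleton]
      norm_num
      have e3 : 2 * Real.pi * (3 * x) = 2 * Real.pi * 3 * x := by ring
      have e5 : 2 * Real.pi * (5 * x) = 2 * Real.pi * 5 * x := by ring
      rw [e3, e5]
      ring
    · refine ⟨⟨inferInstance, Q164.Flower.mu_inv⟩, fun ν hν => ?_⟩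
      have := hν.1
      rw [Q164.Flower.integral_mu]
      exact Q164.Flower.integral_le ν hν.2
    · intro X hX hs
      exact Q164.Flower.seven_components hs hX.2.2
  refine ⟨key, fun hconj => ?_⟩
  obtain ⟨f, hV, -, μ, hμ, h7⟩ := key
  obtain ⟨X, hX, hp, hs⟩ := hconj 5 (by decide) f hV μ hμ
  have := (h7 X hX hs).trans hp
  exact absurd this (by decide)

end

end Pool.Agent.Results.MP_38b438_an.FlowerFalse
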